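import Pool.Agent.Helper95.FL.Stmts2

set_option autoImplicit false

/-!
MP_62fbe0_lc, XT-A4: `StCyc3` (3-cycles are chambers).
-/

namespace Pool.Agent.Helper65.FL

open Pool.Agent.Helper22.ETModel
open Pool.Agent.Helper95.FL
open scoped Classical

theorem edge_inj {X V : Type} (𝒞 : Cx X V) (x : X) {s t : Fin 3}
    (h : 𝒞.edge s x = 𝒞.edge t x) : s = t := by
  have h1 : 𝒞.vert (s + 1) x = 𝒞.vert (t + 1) x := congrArg Prod.fst h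
  have h2 := congrArg 𝒞.ty h1
  rw [𝒞.ty_vert, 𝒞.ty_vert] at h2
  exact add_right_cancel h2

theorem chi_eq_sum {X V : Type} (𝒞 : Cx X V) (x : X) (e : V × V) :
    𝒞.chi x e = ∑ s : Fin 3, if 𝒞.edge s x = e then (1 : ℤ) else 0 := by
  unfold Cx.chi
  by_cases h : ∃ s, 𝒞.edge s x = e
  · obtain ⟨s, rfl⟩ := h
    rw [if_pos ⟨s, rfl⟩, Finset.sum_eq_single s]
    · rw [if_pos rfl]
    · intro t _ hts
      rw [if_neg]
      intro h
      exact hts (edge_inj 𝒞 x h)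
    · intro h
      exact absurd (Finset.mem_univ _) h
  · rw [if_neg h]
    symm
    apply Finset.sum_eq_zero
    intro s _
    rw [if_neg]
    intro hs
    exact h ⟨s, hs⟩

theorem el_pos {X V : Type} (𝒞 : Cx X V) (x : X) (e : V × V) (s a b : Fin 3)
    (ha : a = s + 1) (hb : b = s + 2) :
    𝒞.el (𝒞.vert a x) (𝒞.vert b x) e = if 𝒞.edge s x = e then (1 : ℤ) else 0 := by
  subst ha hb
  unfold Cx.el Cx.edge
  simp only [𝒞.ty_vert]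
  have h1 : s + 2 = s + 1 + 1 := by rw [add_assoc]; rfl
  have h2 : ¬ (s + 1 = s + 2 + 1) := by
    revert s; decide
  by_cases h : (𝒞.vert (s + 1) x, 𝒞.vert (s + 2) x) = e
  · rw [if_pos ⟨h1, h.symm⟩, if_pos h]
  · rw [if_neg (fun h' => h h'.2.symm), if_neg (fun h' => h2 h'.1), if_neg h]

theorem el_neg {X V : Type} (𝒞 : Cx X V) (x : X) (e : V × V) (s a b : Fin 3)
    (ha : a = s + 2) (hb : b = s + 1) :
    𝒞.el (𝒞.vert a x) (𝒞.vert b x) e = -(if 𝒞.edge s x = e then (1 : ℤ) else 0) := by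
  subst ha hb
  unfold Cx.el Cx.edge
  simp only [𝒞.ty_vert]
  have h1 : s + 2 = s + 1 + 1 := by rw [add_assoc]; rfl
  have h2 : ¬ (s + 1 = s + 2 + 1) := by
    revert s; decide
  by_cases h : (𝒞.vert (s + 1) x, 𝒞.vert (s + 2) x) = e
  · rw [if_neg (fun h' => h2 h'.1), if_pos ⟨h1, h.symm⟩, if_pos h]
  · rw [if_neg (fun h' => h2 h'.1), if_neg (fun h' => h h'.2.symm), if_neg h, neg_zero]

theorem fin3_a (a : Fin 3) : a + 2 = a + 1 + 1 := by revert a; decide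

theorem fin3_b (a : Fin 3) : a = a + 1 + 2 := by revert a; decide

theorem fin3_c (a : Fin 3) : a = a + 2 + 1 := by revert a; decide

theorem fin3_d (a : Fin 3) : a + 1 = a + 2 + 2 := by revert a; decide

theorem cyc3_pos {X V : Type} (𝒞 : Cx X V) (x : X) (a : Fin 3) :
    𝒞.cyc3 (𝒞.vert a x) (𝒞.vert (a + 1) x) (𝒞.vert (a + 2) x) = 𝒞.chi x := by
  funext e
  have e1 := el_pos 𝒞 x e (a + 2) a (a + 1) (fin3_c a) (fin3_d a)
  have e2 := el_pos 𝒞 x e a (a + 1) (a + 2) rfl rfl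
  have e3 := el_pos 𝒞 x e (a + 1) (a + 2) a (fin3_a a) (fin3_b a)
  have hs : 𝒞.cyc3 (𝒞.vert a x) (𝒞.vert (a + 1) x) (𝒞.vert (a + 2) x) e =
      𝒞.el (𝒞.vert a x) (𝒞.vert (a + 1) x) e + 𝒞.el (𝒞.vert (a + 1) x) (𝒞.vert (a + 2) x) e +
        𝒞.el (𝒞.vert (a + 2) x) (𝒞.vert a x) e := rfl
  rw [hs, e1, e2, e3, chi_eq_sum, Fin.sum_univ_three]
  fin_cases a
  · show (if 𝒞.edge 2 x = e then (1 : ℤ) else 0) + (if 𝒞.edge 0 x = e then (1 : ℤ) else 0) +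
      (if 𝒞.edge 1 x = e then (1 : ℤ) else 0) = _
    ring
  · show (if 𝒞.edge 0 x = e then (1 : ℤ) else 0) + (if 𝒞.edge 1 x = e then (1 : ℤ) else 0) +
      (if 𝒞.edge 2 x = e then (1 : ℤ) else 0) = _
    ring
  · show (if 𝒞.edge 1 x = e then (1 : ℤ) else 0) + (if 𝒞.edge 2 x = e then (1 : ℤ) else 0) +
      (if 𝒞.edge 0 x = e then (1 : ℤ) else 0) = _
    ring

theorem cyc3_neg {X V : Type} (𝒞 : Cx X V) (x : X) (b : Fin 3) :
    𝒞.cyc3 (𝒞.vert (b + 1) x) (𝒞.vert b x) (𝒞.vert (b + 2) x) = -𝒞.chi x := by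
  funext e
  have e1 := el_neg 𝒞 x e (b + 2) (b + 1) b (fin3_d b) (fin3_c b)
  have e2 := el_neg 𝒞 x e (b + 1) b (b + 2) (fin3_b b) (fin3_a b)
  have e3 := el_neg 𝒞 x e b (b + 2) (b + 1) rfl rfl
  have hs : 𝒞.cyc3 (𝒞.vert (b + 1) x) (𝒞.vert b x) (𝒞.vert (b + 2) x) e =
      𝒞.el (𝒞.vert (b + 1) x) (𝒞.vert b x) e + 𝒞.el (𝒞.vert b x) (𝒞.vert (b + 2) x) e +
        𝒞.el (𝒞.vert (b + 2) x) (𝒞.vert (b + 1) x) e := rfl
  have hn : (-𝒞.chi x) e = -(𝒞.chi x e) := rfl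
  rw [hs, e1, e2, e3, hn, chi_eq_sum, Fin.sum_univ_three]
  fin_cases b
  · show -(if 𝒞.edge 2 x = e then (1 : ℤ) else 0) + -(if 𝒞.edge 1 x = e then (1 : ℤ) else 0) +
      -(if 𝒞.edge 0 x = e then (1 : ℤ) else 0) = _
    ring
  · show -(if 𝒞.edge 0 x = e then (1 : ℤ) else 0) + -(if 𝒞.edge 2 x = e then (1 : ℤ) else 0) +
      -(if 𝒞.edge 1 x = e then (1 : ℤ) else 0) = _
    ring
  · show -(if 𝒞.edge 1 x = e then (1 : ℤ) else 0) + -(if 𝒞.edge 0 x = e then (1 : ℤ) else 0) +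
      -(if 𝒞.edge 2 x = e then (1 : ℤ) else 0) = _
    ring

theorem adj_symm {X V : Type} (𝒞 : Cx X V) {v w : V} (h : 𝒞.Adj v w) : 𝒞.Adj w v := by
  obtain ⟨h1, x, h2, h3⟩ := h
  exact ⟨h1.symm, x, h3, h2⟩

theorem types_three (a b c : Fin 3) (hab : a ≠ b) (hbc : b ≠ c) (hca : c ≠ a) :
    (b = a + 1 ∧ c = a + 2) ∨ (a = b + 1 ∧ c = b + 2) := by
  revert a b c; decide

theorem stCyc3 : StCyc3 := by
  intro X V _ 𝒞 d k hN u v w h3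
  obtain ⟨huv, hvw, hwu⟩ := h3
  obtain ⟨x, hu, hv, hw⟩ := hN.clique3 u v w huv hvw (adj_symm 𝒞 hwu)
  refine ⟨x, ⟨hu, hv, hw⟩, ?_⟩
  rcases types_three (𝒞.ty u) (𝒞.ty v) (𝒞.ty w) huv.1 hvw.1 hwu.1 with ⟨h1, h2⟩ | ⟨h1, h2⟩
  · left
    refine ⟨h1, ?_⟩
    have key := cyc3_pos 𝒞 x (𝒞.ty u)
    rw [← h1, ← h2, hu, hv, hw] at key
    exact key
  · right
    refine ⟨h1, ?_⟩
    have key := cyc3_neg 𝒞 x (𝒞.ty v)
    rw [← h1, ← h2, hu, hv, hw] at key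
    exact key

end Pool.Agent.Helper65.FL
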